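import Mathlib

set_option autoImplicit false

/-! # Means, Bohr sets and KMF means on a discrete abelian group -/

namespace Pool.Agent.Q246.KMF

open MeasureTheory

universe u

/-- A bounded real function. -/
def Bdd {G : Type u} (f : G → ℝ) : Prop := ∃ C : ℝ, ∀ g, |f g| ≤ C

/-- The indicator function of a set. -/
noncomputable def ind {G : Type u} (A : Set G) : G → ℝ := Set.indicator A (fun _ => 1)

/-- A mean: a positive linear functional `m` on the bounded real functions on `G` with
`m 1 = 1` (the values on unbounded functions are irrelevant). -/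
structure Mean (G : Type u) where
  toFun : (G → ℝ) → ℝ
  add : ∀ f g, Bdd f → Bdd g → toFun (fun x => f x + g x) = toFun f + toFun g
  smul : ∀ (c : ℝ) f, Bdd f → toFun (fun x => c * f x) = c * toFun f
  nonneg : ∀ f, Bdd f → (∀ x, 0 ≤ f x) → 0 ≤ toFun f
  one : toFun (fun _ => 1) = 1

variable {G : Type u} [AddCommGroup G]

/-- The mean is invariant: `m (f (· + g)) = m f`. -/
def Invariant (m : Mean G) : Prop :=
  ∀ (f : G → ℝ) (g : G), Bdd f → m.toFun (fun x => f (x + g)) = m.toFun f

/-- The upper Banach density: the supremum of `m(1_A)` over all invariant means `m`. -/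
noncomputable def dStar (A : Set G) : ℝ :=
  sSup {r | ∃ m : Mean G, Invariant m ∧ m.toFun (ind A) = r}

/-- The dual group: the characters `G → S¹`, with the topology of pointwise convergence. -/
abbrev Dual (G : Type u) [AddCommGroup G] : Type u := AddChar G Circle

/-- The topology of pointwise convergence. -/
noncomputable instance dualTop : TopologicalSpace (Dual G) :=
  TopologicalSpace.induced (fun χ : Dual G => fun g => χ g) inferInstance

/-- The Borel `σ`-algebra of the dual group. -/
noncomputable instance dualMeas : MeasurableSpace (Dual G) := borel (Dual G)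

instance dualBorel : BorelSpace (Dual G) := ⟨rfl⟩

/-- The Bohr set of the finite set `Ξ` of characters and of the radius `ε`. -/
def bohr (Ξ : Finset (Dual G)) (ε : ℝ) : Set G :=
  {g | ∀ χ ∈ Ξ, ‖((χ g : Circle) : ℂ) - 1‖ < ε}

/-- A Bohr set. -/
def IsBohr (B : Set G) : Prop := ∃ (Ξ : Finset (Dual G)) (ε : ℝ), 0 < ε ∧ B = bohr Ξ ε

/-- An almost Bohr set: a Bohr set minus a set of upper Banach density zero. -/
def IsAlmostBohr (A : Set G) : Prop := ∃ B E : Set G, IsBohr B ∧ dStar E = 0 ∧ A = B \ E

/-- `S` is expanding: it meets every almost Bohr set. -/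
def Expanding (S : Set G) : Prop := ∀ A : Set G, IsAlmostBohr A → (S ∩ A).Nonempty

/-- The Fourier transform `μ̂(g) = ∫ conj (χ g) dμ(χ)`. -/
noncomputable def ft (μ : Measure (Dual G)) (g : G) : ℂ :=
  ∫ χ : Dual G, (starRingEnd ℂ) ((χ g : Circle) : ℂ) ∂μ

/-- The mean annihilates continuous measures: `m(|μ̂|) = 0` for every finite regular Borel measure
`μ` on the dual group without atoms. -/
def AnnihilatesContinuous (m : Mean G) : Prop :=
  ∀ μ : Measure (Dual G), IsFiniteMeasure μ → μ.Regular → (∀ χ, μ {χ} = 0) →
    m.toFun (fun g => ‖ft μ g‖) = 0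

/-- The mean is supported on `S`. -/
def SupportedOn (m : Mean G) (S : Set G) : Prop := m.toFun (ind S) = 1

/-- The mean massively accumulates at `0`. -/
def MassivelyAccumulates (m : Mean G) : Prop := ∀ B : Set G, IsBohr B → 0 < m.toFun (ind B)

/-- A KMF mean. -/
def IsKMF (m : Mean G) : Prop := AnnihilatesContinuous m ∧ MassivelyAccumulates m

end Pool.Agent.Q246.KMF
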