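import Pool.Agent.Q246.KMF.Sum

set_option autoImplicit false

namespace Pool.Agent.Q246.KMF

open MeasureTheory Topology Filter ComplexConjugate

universe u

variable {G : Type u} [AddCommGroup G]

theorem integrable_cont (μ : Measure (Dual G)) [IsFiniteMeasure μ] {f : Dual G → ℂ}
    (hf : Continuous f) : Integrable f μ := by
  obtain ⟨C, hC⟩ := (isCompact_range hf).isBounded.exists_norm_le
  exact Integrable.of_bound hf.aestronglyMeasurable C
    (Eventually.of_forall fun x => hC _ ⟨x, rfl⟩)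

theorem cont_th (ψ : Dual G) (g : G) : Continuous (fun χ : Dual G => th ψ χ g) := by
  unfold th
  exact continuous_const.mul (Complex.continuous_conj.comp (continuous_evC g))

theorem ft_norm_le (μ : Measure (Dual G)) [IsFiniteMeasure μ] (g : G) :
    ‖ft μ g‖ ≤ μ.real Set.univ := by
  unfold ft
  have h := norm_integral_le_of_norm_le_const (μ := μ)
    (f := fun χ : Dual G => conj ((χ g : Circle) : ℂ)) (C := 1)
    (Eventually.of_forall fun χ => by rw [RCLike.norm_conj, Circle.norm_coe])
  simpa using h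

theorem ft_sq (μ : Measure (Dual G)) [IsFiniteMeasure μ] (g : G) :
    ((‖ft μ g‖ ^ 2 : ℝ) : ℂ) = ∫ ψ : Dual G, (∫ χ : Dual G, th ψ χ g ∂μ) ∂μ := by
  have h1 : ∀ ψ : Dual G, (∫ χ : Dual G, th ψ χ g ∂μ) = ((ψ g : Circle) : ℂ) * ft μ g := by
    intro ψ
    unfold th ft
    rw [integral_const_mul]
  simp only [h1]
  rw [integral_mul_const]
  have h2 : (∫ ψ : Dual G, ((ψ g : Circle) : ℂ) ∂μ) = conj (ft μ g) := by
    unfold ft
    rw [← integral_conj]
    simp
  rw [h2, mul_comm, Complex.mul_conj, Complex.normSq_eq_norm_sq]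

/-- The main estimate. -/
theorem avg_le [DecidableEq G] (μ : Measure (Dual G)) [IsFiniteMeasure μ] (K : Finset G) {N : ℕ}
    (hN : 0 < N) {δ ε : ℝ} (hδ : 0 < δ) (hε : ∀ ψ : Dual G, μ.real (nb ψ K δ) ≤ ε) (x : G) :
    ∑ j : K → Fin N, ‖ft μ (x + sh K N j)‖ ^ 2 ≤
      (N : ℝ) ^ K.card * (ε + 2 / (N * δ) * μ.real Set.univ) * μ.real Set.univ := by
  have h1 : ((∑ j : K → Fin N, ‖ft μ (x + sh K N j)‖ ^ 2 : ℝ) : ℂ) =
      ∫ ψ : Dual G, (∫ χ : Dual G, ∑ j : K → Fin N, th ψ χ (x + sh K N j) ∂μ) ∂μ := by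
    rw [Complex.ofReal_sum]
    simp only [ft_sq]
    rw [← integral_finsetSum]
    · refine integral_congr_ae (Eventually.of_forall fun ψ => ?_)
      show ∑ j : K → Fin N, (∫ χ : Dual G, th ψ χ (x + sh K N j) ∂μ) = _
      rw [← integral_finsetSum]
      intro j _
      exact integrable_cont μ (cont_th ψ _)
    · intro j _
      have h2 : (fun ψ : Dual G => ∫ χ : Dual G, th ψ χ (x + sh K N j) ∂μ) =
          fun ψ => ((ψ (x + sh K N j) : Circle) : ℂ) * ft μ (x + sh K N j) := by
        funext ψ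
        unfold th ft
        rw [integral_const_mul]
      rw [h2]
      exact integrable_cont μ ((continuous_evC _).mul continuous_const)
  have h2 : ∀ ψ : Dual G, ‖∫ χ : Dual G, ∑ j : K → Fin N, th ψ χ (x + sh K N j) ∂μ‖ ≤
      (N : ℝ) ^ K.card * (ε + 2 / (N * δ) * μ.real Set.univ) := by
    intro ψ
    have hN' : (0 : ℝ) < N := by exact_mod_cast hN
    have hb : ∀ χ : Dual G, ‖∑ j : K → Fin N, th ψ χ (x + sh K N j)‖ ≤
        (N : ℝ) ^ K.card * (Set.indicator (nb ψ K δ) (fun _ => (1 : ℝ)) χ + 2 / (N * δ)) := by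
      intro χ
      have e : ∑ j : K → Fin N, th ψ χ (x + sh K N j) =
          th ψ χ x * ∑ j : K → Fin N, th ψ χ (sh K N j) := by
        rw [Finset.mul_sum]
        exact Finset.sum_congr rfl fun j _ => th_add _ _ _ _
      rw [e, norm_mul, norm_th, one_mul]
      by_cases hχ : χ ∈ nb ψ K δ
      · rw [Set.indicator_of_mem hχ]
        refine (sum_th_le K N ψ χ).trans ?_
        have : (0 : ℝ) ≤ 2 / (N * δ) := by positivity
        nlinarith [pow_pos hN' K.card]
      · rw [Set.indicator_of_notMem hχ, zero_add]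
        exact sum_th_le' K hN ψ χ hδ hχ
    have hint : Integrable (fun χ : Dual G => (N : ℝ) ^ K.card *
        (Set.indicator (nb ψ K δ) (fun _ => (1 : ℝ)) χ + 2 / (N * δ))) μ := by
      refine Integrable.const_mul ?_ _
      refine Integrable.add ?_ (integrable_const _)
      exact (integrable_const (1 : ℝ)).indicator (isOpen_nb ψ K δ).measurableSet
    refine (norm_integral_le_of_norm_le hint (Eventually.of_forall hb)).trans ?_
    rw [integral_const_mul, integral_add
      ((integrable_const (1 : ℝ)).indicator (isOpen_nb ψ K δ).measurableSet) (integrable_const _),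
      integral_indicator_const _ (isOpen_nb ψ K δ).measurableSet, integral_const]
    simp only [smul_eq_mul, mul_one]
    have := hε ψ
    have h3 : μ.real (nb ψ K δ) + μ.real Set.univ * (2 / (N * δ)) ≤
        ε + 2 / (N * δ) * μ.real Set.univ := by
      rw [mul_comm (μ.real Set.univ)]
      linarith
    exact mul_le_mul_of_nonneg_left h3 (by positivity)
  have h3 : ‖((∑ j : K → Fin N, ‖ft μ (x + sh K N j)‖ ^ 2 : ℝ) : ℂ)‖ ≤
      (N : ℝ) ^ K.card * (ε + 2 / (N * δ) * μ.real Set.univ) * μ.real Set.univ := by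
    rw [h1]
    exact norm_integral_le_of_norm_le_const (Eventually.of_forall h2)
  rw [Complex.norm_real] at h3
  exact (le_abs_self _).trans h3

end Pool.Agent.Q246.KMF
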