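import Pool.Agent.Q246.KMF.Means

set_option autoImplicit false

namespace Pool.Agent.Q246.KMF

open MeasureTheory Topology Filter

universe u

section general
variable {G : Type u}

theorem Mean.abs_le (m : Mean G) {f : G → ℝ} {C : ℝ} (h : ∀ x, |f x| ≤ C) : |m.toFun f| ≤ C := by
  have hf : Bdd f := ⟨C, h⟩
  rw [_root_.abs_le]
  constructor
  · have := m.mono (Bdd.const (-C)) hf fun x => (_root_.abs_le.1 (h x)).1
    rwa [m.const] at this
  · have := m.mono hf (Bdd.const C) fun x => (_root_.abs_le.1 (h x)).2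
    rwa [m.const] at this

/-- The conditional mean. -/
noncomputable def cond (m : Mean G) (A : Set G) (h : 0 < m.toFun (ind A)) : Mean G where
  toFun f := m.toFun (fun x => f x * ind A x) / m.toFun (ind A)
  add f g hf hg := by
    have h1 := m.add _ _ (hf.mul (ind_bdd A)) (hg.mul (ind_bdd A))
    simp only [add_mul]
    rw [h1, add_div]
  smul c f hf := by
    have h1 := m.smul c _ (hf.mul (ind_bdd A))
    simp only [mul_assoc]
    rw [h1, mul_div_assoc]
  nonneg f hf hp := div_nonneg (m.nonneg _ (hf.mul (ind_bdd A))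
    fun x => mul_nonneg (hp x) (ind_nonneg A x)) h.le
  one := by
    simp only [one_mul]
    exact div_self h.ne'

theorem cond_sub (m : Mean G) {A B : Set G} (h : 0 < m.toFun (ind A)) (hAB : A ⊆ B) :
    (cond m A h).toFun (ind B) = 1 := by
  show m.toFun (fun x => ind B x * ind A x) / m.toFun (ind A) = 1
  have e : (fun x => ind B x * ind A x) = ind A := by
    funext x
    rw [ind_mul, Set.inter_eq_self_of_subset_right hAB]
  rw [e]
  exact div_self h.ne'

variable {I : Type u} (𝓤 : Ultrafilter I) (ν : I → Mean G)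

theorem lim_exists {f : G → ℝ} (hf : Bdd f) :
    ∃ L, Tendsto (fun i => (ν i).toFun f) (𝓤 : Filter I) (𝓝 L) := by
  obtain ⟨C, hC⟩ := hf
  have h1 : ∀ i, (ν i).toFun f ∈ Set.Icc (-C) C := fun i => abs_le.1 ((ν i).abs_le hC)
  obtain ⟨L, -, hL⟩ := isCompact_Icc.ultrafilter_le_nhds' (𝓤.map fun i => (ν i).toFun f)
    (Ultrafilter.mem_map.2 (Filter.Eventually.of_forall h1))
  exact ⟨L, hL⟩

theorem lim_tendsto {f : G → ℝ} (hf : Bdd f) :
    Tendsto (fun i => (ν i).toFun f) (𝓤 : Filter I)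
      (𝓝 (limUnder (𝓤 : Filter I) fun i => (ν i).toFun f)) :=
  tendsto_nhds_limUnder (lim_exists 𝓤 ν hf)

/-- The limit of means. -/
noncomputable def limMean : Mean G where
  toFun f := limUnder (𝓤 : Filter I) fun i => (ν i).toFun f
  add f g hf hg := by
    refine tendsto_nhds_unique (lim_tendsto 𝓤 ν (hf.add hg)) ?_
    refine ((lim_tendsto 𝓤 ν hf).add (lim_tendsto 𝓤 ν hg)).congr fun i => ?_
    exact ((ν i).add f g hf hg).symm
  smul c f hf := by
    refine tendsto_nhds_unique (lim_tendsto 𝓤 ν (hf.smul c)) ?_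
    refine ((lim_tendsto 𝓤 ν hf).const_mul c).congr fun i => ?_
    exact ((ν i).smul c f hf).symm
  nonneg f hf hp :=
    ge_of_tendsto' (lim_tendsto 𝓤 ν hf) fun i => (ν i).nonneg f hf hp
  one := by
    refine tendsto_nhds_unique (lim_tendsto 𝓤 ν (Bdd.const 1)) ?_
    refine tendsto_const_nhds.congr fun i => ?_
    exact (ν i).one.symm

theorem limMean_eq {f : G → ℝ} (hf : Bdd f) {L : ℝ}
    (h : ∀ᶠ i in (𝓤 : Filter I), (ν i).toFun f = L) : (limMean 𝓤 ν).toFun f = L := by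
  refine tendsto_nhds_unique (lim_tendsto 𝓤 ν hf) ?_
  refine tendsto_const_nhds.congr' ?_
  filter_upwards [h] with i hi
  exact hi.symm

end general

variable {G : Type u} [AddCommGroup G]

theorem dStar_nonneg (A : Set G) : 0 ≤ dStar A := Real.sSup_nonneg (by
  rintro r ⟨m, -, rfl⟩
  exact m.nonneg _ (ind_bdd A) (ind_nonneg A))

theorem le_dStar {m : Mean G} (hm : Invariant m) (A : Set G) : m.toFun (ind A) ≤ dStar A := by
  refine le_csSup ⟨1, ?_⟩ ⟨m, hm, rfl⟩
  rintro r ⟨m', -, rfl⟩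
  have := m'.mono (ind_bdd A) (Bdd.const 1) (ind_le_one A)
  rwa [m'.const] at this

theorem exists_inv {A : Set G} (h : 0 < dStar A) :
    ∃ m : Mean G, Invariant m ∧ 0 < m.toFun (ind A) := by
  by_contra hno
  push Not at hno
  have : dStar A ≤ 0 := Real.sSup_le (by
    rintro r ⟨m, hm, rfl⟩
    exact hno m hm) le_rfl
  linarith

theorem expanding_iff (S : Set G) : Expanding S ↔ ∀ B : Set G, IsBohr B → 0 < dStar (S ∩ B) := by
  constructor
  · intro h B hB
    by_contra hno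
    have h0 : dStar (S ∩ B) = 0 := le_antisymm (not_lt.1 hno) (dStar_nonneg _)
    obtain ⟨x, hxS, hxB, hx⟩ := h (B \ (S ∩ B)) ⟨B, S ∩ B, hB, h0, rfl⟩
    exact hx ⟨hxS, hxB⟩
  · rintro h A ⟨B, E, hB, hE, rfl⟩
    by_contra hno
    rw [Set.not_nonempty_iff_eq_empty] at hno
    obtain ⟨m, hm, hpos⟩ := exists_inv (h B hB)
    have hsub : S ∩ B ⊆ E := by
      rintro x ⟨hxS, hxB⟩
      by_contra hxE
      have : x ∈ S ∩ (B \ E) := ⟨hxS, hxB, hxE⟩
      rw [hno] at this
      exact this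
    have h1 := m.mono (ind_bdd (S ∩ B)) (ind_bdd E) (ind_mono hsub)
    have h2 := le_dStar hm E
    linarith

/-- The positive answer. -/
theorem main (S : Set G) (h : ∀ B : Set G, IsBohr B → 0 < dStar (S ∩ B)) :
    ∃ m : Mean G, SupportedOn m S ∧ AnnihilatesContinuous m ∧
      ∀ B : Set G, IsBohr B → m.toFun (ind B) = 1 := by
  classical
  let I : Type u := Finset (Dual G) × ℕ
  have h1 : ∀ i : I, ∃ m : Mean G, Invariant m ∧
      0 < m.toFun (ind (S ∩ bohr i.1 (1 / ((i.2 : ℝ) + 1)))) := fun i =>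
    exists_inv (h _ ⟨i.1, 1 / ((i.2 : ℝ) + 1), by positivity, rfl⟩)
  choose m hm hpos using h1
  let ν : I → Mean G := fun i => cond (m i) _ (hpos i)
  let 𝓤 : Ultrafilter I := Ultrafilter.of atTop
  have hle : (𝓤 : Filter I) ≤ atTop := Ultrafilter.of_le atTop
  refine ⟨limMean 𝓤 ν, ?_, ?_, ?_⟩
  · refine limMean_eq 𝓤 ν (ind_bdd S) (Eventually.of_forall fun i => ?_)
    exact cond_sub (m i) (hpos i) Set.inter_subset_left
  · intro μ hμ1 hμ2 hμ3
    have b1 : Bdd (fun g : G => ‖ft μ g‖) := ⟨μ.real Set.univ, fun g => by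
      rw [abs_norm]
      exact ft_norm_le μ g⟩
    refine limMean_eq 𝓤 ν b1 (Eventually.of_forall fun i => ?_)
    show (m i).toFun (fun x => ‖ft μ x‖ * ind _ x) / (m i).toFun (ind _) = 0
    have h2 : (m i).toFun (fun x => ‖ft μ x‖ * ind (S ∩ bohr i.1 (1 / ((i.2 : ℝ) + 1))) x) ≤
        (m i).toFun (fun x => ‖ft μ x‖) := by
      refine (m i).mono (b1.mul (ind_bdd _)) b1 fun x => ?_
      exact mul_le_of_le_one_right (norm_nonneg _) (ind_le_one _ x)
    rw [wiener (m i) (hm i) μ hμ3] at h2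
    have h3 : 0 ≤ (m i).toFun
        (fun x => ‖ft μ x‖ * ind (S ∩ bohr i.1 (1 / ((i.2 : ℝ) + 1))) x) :=
      (m i).nonneg _ (b1.mul (ind_bdd _)) fun x => mul_nonneg (norm_nonneg _) (ind_nonneg _ x)
    rw [le_antisymm h2 h3, zero_div]
  · rintro B ⟨Ξ, ε, hε, rfl⟩
    refine limMean_eq 𝓤 ν (ind_bdd _) (hle ?_)
    obtain ⟨n, hn⟩ := exists_nat_one_div_lt hε
    filter_upwards [eventually_ge_atTop ((Ξ, n) : I)] with i hi
    refine cond_sub (m i) (hpos i) ?_
    rintro x ⟨-, hx⟩ χ hχ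
    have h2 := hx χ (hi.1 hχ)
    have h3 : 1 / ((i.2 : ℝ) + 1) ≤ 1 / ((n : ℝ) + 1) := by
      have : (n : ℝ) ≤ i.2 := by exact_mod_cast hi.2
      exact one_div_le_one_div_of_le (by positivity) (by linarith)
    linarith

end Pool.Agent.Q246.KMF
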