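import Pool.Agent.Q246.KMF.Int

set_option autoImplicit false

namespace Pool.Agent.Q246.KMF

open MeasureTheory Topology Filter

universe u

section general
variable {G : Type u}

theorem Bdd.add {f g : G → ℝ} (hf : Bdd f) (hg : Bdd g) : Bdd (fun x => f x + g x) := by
  obtain ⟨C, hC⟩ := hf
  obtain ⟨D, hD⟩ := hg
  exact ⟨C + D, fun x => (abs_add_le _ _).trans (add_le_add (hC x) (hD x))⟩

theorem Bdd.smul {f : G → ℝ} (c : ℝ) (hf : Bdd f) : Bdd (fun x => c * f x) := by
  obtain ⟨C, hC⟩ := hf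
  exact ⟨|c| * C, fun x => by
    rw [abs_mul]
    exact mul_le_mul_of_nonneg_left (hC x) (abs_nonneg c)⟩

theorem Bdd.mul {f g : G → ℝ} (hf : Bdd f) (hg : Bdd g) : Bdd (fun x => f x * g x) := by
  obtain ⟨C, hC⟩ := hf
  obtain ⟨D, hD⟩ := hg
  exact ⟨C * D, fun x => by
    rw [abs_mul]
    exact mul_le_mul (hC x) (hD x) (abs_nonneg _) ((abs_nonneg _).trans (hC x))⟩

theorem Bdd.const (c : ℝ) : Bdd (fun _ : G => c) := ⟨|c|, fun _ => le_rfl⟩

theorem Bdd.sum {ι : Type*} (s : Finset ι) {f : ι → G → ℝ} (h : ∀ i ∈ s, Bdd (f i)) :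
    Bdd (fun x => ∑ i ∈ s, f i x) := by
  classical
  induction s using Finset.induction_on with
  | empty => simpa using Bdd.const (G := G) 0
  | insert a s ha ih =>
    have h1 := (h a (Finset.mem_insert_self _ _)).add
      (ih fun i hi => h i (Finset.mem_insert_of_mem hi))
    convert h1 using 2 with x
    rw [Finset.sum_insert ha]

theorem ind_bdd (A : Set G) : Bdd (ind A) := ⟨1, fun x => by
  unfold ind
  by_cases hx : x ∈ A
  · rw [Set.indicator_of_mem hx]; simp
  · rw [Set.indicator_of_notMem hx]; simp⟩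

theorem ind_nonneg (A : Set G) (x : G) : 0 ≤ ind A x := Set.indicator_nonneg (by simp) _

theorem ind_le_one (A : Set G) (x : G) : ind A x ≤ 1 := by
  unfold ind
  by_cases hx : x ∈ A
  · rw [Set.indicator_of_mem hx]
  · rw [Set.indicator_of_notMem hx]; simp

theorem ind_mono {A B : Set G} (h : A ⊆ B) (x : G) : ind A x ≤ ind B x :=
  Set.indicator_le_indicator_of_subset h (fun _ => zero_le_one) x

theorem ind_mul (A B : Set G) (x : G) : ind A x * ind B x = ind (A ∩ B) x := by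
  unfold ind
  by_cases hA : x ∈ A <;> by_cases hB : x ∈ B <;> simp [hA, hB]

theorem Mean.mono (m : Mean G) {f g : G → ℝ} (hf : Bdd f) (hg : Bdd g) (h : ∀ x, f x ≤ g x) :
    m.toFun f ≤ m.toFun g := by
  have h1 : Bdd (fun x => g x + (-1) * f x) := hg.add (hf.smul _)
  have h2 := m.add f (fun x => g x + (-1) * f x) hf h1
  have h3 := m.nonneg _ h1 (fun x => by linarith [h x])
  have h4 : (fun x => f x + (g x + (-1) * f x)) = g := by
    funext x
    ring
  rw [h4] at h2
  linarith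

theorem Mean.const (m : Mean G) (c : ℝ) : m.toFun (fun _ => c) = c := by
  have h := m.smul c (fun _ => 1) (Bdd.const 1)
  rw [m.one] at h
  simpa using h

theorem Mean.sum (m : Mean G) {ι : Type*} (s : Finset ι) {f : ι → G → ℝ}
    (h : ∀ i ∈ s, Bdd (f i)) :
    m.toFun (fun x => ∑ i ∈ s, f i x) = ∑ i ∈ s, m.toFun (f i) := by
  classical
  induction s using Finset.induction_on with
  | empty => simpa using m.const 0
  | insert a s ha ih =>
    have h1 := h a (Finset.mem_insert_self _ _)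
    have h2 : ∀ i ∈ s, Bdd (f i) := fun i hi => h i (Finset.mem_insert_of_mem hi)
    have h3 := m.add (f a) (fun x => ∑ i ∈ s, f i x) h1 (Bdd.sum s h2)
    rw [Finset.sum_insert ha, ← ih h2, ← h3]
    congr 1
    funext x
    rw [Finset.sum_insert ha]

end general

variable {G : Type u} [AddCommGroup G]

/-- Wiener's lemma for invariant means. -/
theorem wiener (m : Mean G) (hm : Invariant m) (μ : Measure (Dual G)) [IsFiniteMeasure μ]
    [μ.OuterRegular] (hμ : ∀ χ, μ {χ} = 0) : m.toFun (fun g => ‖ft μ g‖) = 0 := by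
  classical
  set M := μ.real Set.univ with hM
  have hM0 : 0 ≤ M := measureReal_nonneg
  have b1 : Bdd (fun g : G => ‖ft μ g‖) := ⟨M, fun g => by
    rw [abs_norm]
    exact ft_norm_le μ g⟩
  have b2 : Bdd (fun g : G => ‖ft μ g‖ ^ 2) := by
    simpa [pow_two] using b1.mul b1
  have hsq : m.toFun (fun g => ‖ft μ g‖ ^ 2) ≤ 0 := by
    refine le_of_forall_pos_le_add fun η hη => ?_
    rw [zero_add]
    obtain ⟨ε, hε0, hε⟩ : ∃ ε : ℝ, 0 < ε ∧ 2 * ε * M ≤ η := by
      refine ⟨η / (2 * (M + 1)), by positivity, ?_⟩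
      have e : 2 * (η / (2 * (M + 1))) * M = η * (M / (M + 1)) := by
        field_simp
      rw [e]
      have h1 : M / (M + 1) ≤ 1 := by
        rw [div_le_one (by positivity)]
        linarith
      calc η * (M / (M + 1)) ≤ η * 1 := mul_le_mul_of_nonneg_left h1 hη.le
        _ = η := mul_one η
    obtain ⟨K, δ, hδ, hK⟩ := unif_small μ hμ (ε := ENNReal.ofReal ε) (by simpa using hε0)
    have hK' : ∀ ψ : Dual G, μ.real (nb ψ K δ) ≤ ε := fun ψ =>
      ENNReal.toReal_le_of_le_ofReal hε0.le (hK ψ)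
    obtain ⟨N, hN⟩ := exists_nat_gt (2 * M / (δ * ε))
    have hN0 : (0 : ℝ) < N := lt_of_le_of_lt (by positivity) hN
    have hN1 : 0 < N := by exact_mod_cast hN0
    have hNε : 2 / (N * δ) * M ≤ ε := by
      rw [div_lt_iff₀ (by positivity)] at hN
      rw [div_mul_eq_mul_div, div_le_iff₀ (by positivity)]
      nlinarith
    have key := fun x => avg_le μ K hN1 hδ hK' x
    have hb : ∀ j ∈ (Finset.univ : Finset (K → Fin N)),
        Bdd (fun g => ‖ft μ (g + sh K N j)‖ ^ 2) := by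
      intro j _
      obtain ⟨C, hC⟩ := b2
      exact ⟨C, fun g => hC (g + sh K N j)⟩
    have h1 : m.toFun (fun x => ∑ j : K → Fin N, ‖ft μ (x + sh K N j)‖ ^ 2) =
        (N : ℝ) ^ K.card * m.toFun (fun g => ‖ft μ g‖ ^ 2) := by
      rw [m.sum _ hb]
      have h2 : ∀ j ∈ (Finset.univ : Finset (K → Fin N)),
          m.toFun (fun g => ‖ft μ (g + sh K N j)‖ ^ 2) = m.toFun (fun g => ‖ft μ g‖ ^ 2) :=
        fun j _ => hm (fun g => ‖ft μ g‖ ^ 2) (sh K N j) b2
      rw [Finset.sum_congr rfl h2, Finset.sum_const, Finset.card_univ, Fintype.card_fun,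
        Fintype.card_fin, Fintype.card_coe, nsmul_eq_mul]
      push_cast
      rfl
    have h2 := m.mono (Bdd.sum _ hb) (Bdd.const _) key
    rw [h1, m.const] at h2
    have hp : (0 : ℝ) < (N : ℝ) ^ K.card := by positivity
    have h3 : m.toFun (fun g => ‖ft μ g‖ ^ 2) ≤ (ε + 2 / (N * δ) * M) * M := by
      rw [mul_assoc] at h2
      exact le_of_mul_le_mul_left h2 hp
    refine h3.trans (le_trans ?_ hε)
    nlinarith
  have hle : m.toFun (fun g => ‖ft μ g‖) ≤ 0 := by
    refine le_of_forall_pos_le_add fun η hη => ?_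
    rw [zero_add]
    have b3 : Bdd (fun g : G => 1 / (4 * η) * ‖ft μ g‖ ^ 2) := b2.smul _
    have b4 : Bdd (fun g : G => η + 1 / (4 * η) * ‖ft μ g‖ ^ 2) := (Bdd.const η).add b3
    have h1 : m.toFun (fun g => ‖ft μ g‖) ≤
        m.toFun (fun g : G => η + 1 / (4 * η) * ‖ft μ g‖ ^ 2) := by
      refine m.mono b1 b4 fun g => ?_
      have h2 : 0 ≤ (‖ft μ g‖ - 2 * η) ^ 2 := sq_nonneg _
      have h3 : η + 1 / (4 * η) * ‖ft μ g‖ ^ 2 - ‖ft μ g‖ =
          (‖ft μ g‖ - 2 * η) ^ 2 / (4 * η) := by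
        field_simp
        ring
      have h4 : 0 ≤ (‖ft μ g‖ - 2 * η) ^ 2 / (4 * η) := by positivity
      linarith
    rw [m.add (fun _ => η) (fun g => 1 / (4 * η) * ‖ft μ g‖ ^ 2) (Bdd.const η) b3, m.const,
      m.smul _ _ b2] at h1
    have h5 : 1 / (4 * η) * m.toFun (fun g => ‖ft μ g‖ ^ 2) ≤ 0 :=
      mul_nonpos_of_nonneg_of_nonpos (by positivity) hsq
    linarith
  exact le_antisymm hle (m.nonneg _ b1 fun x => norm_nonneg _)

end Pool.Agent.Q246.KMF
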