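import Pool.Agent.Q246.KMF.Top

set_option autoImplicit false

namespace Pool.Agent.Q246.KMF

open MeasureTheory Topology Filter ComplexConjugate

universe u

variable {G : Type u} [AddCommGroup G]

/-- `ψ(g) conj χ(g)` -/
noncomputable def th (ψ χ : Dual G) (g : G) : ℂ := ((ψ g : Circle) : ℂ) * conj ((χ g : Circle) : ℂ)

theorem norm_th (ψ χ : Dual G) (g : G) : ‖th ψ χ g‖ = 1 := by
  unfold th
  rw [norm_mul, RCLike.norm_conj, Circle.norm_coe, Circle.norm_coe, mul_one]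

theorem th_zero (ψ χ : Dual G) : th ψ χ 0 = 1 := by
  simp [th]

theorem th_add (ψ χ : Dual G) (a b : G) : th ψ χ (a + b) = th ψ χ a * th ψ χ b := by
  unfold th
  rw [AddChar.map_add_eq_mul, AddChar.map_add_eq_mul, Circle.coe_mul, Circle.coe_mul, map_mul]
  ring

theorem th_nsmul (ψ χ : Dual G) (n : ℕ) (a : G) : th ψ χ (n • a) = th ψ χ a ^ n := by
  induction n with
  | zero => simp [th_zero]
  | succ n ih => rw [succ_nsmul, th_add, ih, pow_succ]

theorem th_sum {ι : Type*} (ψ χ : Dual G) (s : Finset ι) (f : ι → G) :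
    th ψ χ (∑ i ∈ s, f i) = ∏ i ∈ s, th ψ χ (f i) := by
  classical
  induction s using Finset.induction_on with
  | empty => simp [th_zero]
  | insert a s ha ih => rw [Finset.sum_insert ha, Finset.prod_insert ha, th_add, ih]

theorem norm_th_sub (ψ χ : Dual G) (g : G) :
    ‖th ψ χ g - 1‖ = ‖((χ g : Circle) : ℂ) - ψ g‖ := by
  have h : conj ((χ g : Circle) : ℂ) * ((χ g : Circle) : ℂ) = 1 := by
    rw [mul_comm, Complex.mul_conj, Circle.normSq_coe]
    simp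
  have h1 : th ψ χ g - 1 = conj ((χ g : Circle) : ℂ) * (((ψ g : Circle) : ℂ) - χ g) := by
    unfold th
    rw [mul_sub, h]
    ring
  rw [h1, norm_mul, RCLike.norm_conj, Circle.norm_coe, one_mul, norm_sub_rev]

/-- The shifts. -/
def sh (K : Finset G) (N : ℕ) (j : K → Fin N) : G := ∑ k : K, (j k : ℕ) • (k : G)

theorem sum_th [DecidableEq G] (K : Finset G) (N : ℕ) (ψ χ : Dual G) :
    ∑ j : K → Fin N, th ψ χ (sh K N j) = ∏ k : K, ∑ i : Fin N, th ψ χ (k : G) ^ (i : ℕ) := by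
  rw [Finset.prod_univ_sum, Fintype.piFinset_univ]
  refine Finset.sum_congr rfl fun j _ => ?_
  unfold sh
  rw [th_sum]
  exact Finset.prod_congr rfl fun k _ => th_nsmul _ _ _ _

theorem geom_le (N : ℕ) (ψ χ : Dual G) (g : G) :
    ‖∑ i : Fin N, th ψ χ g ^ (i : ℕ)‖ ≤ N := by
  refine (norm_sum_le _ _).trans ?_
  simp [norm_pow, norm_th]

theorem geom_le' (N : ℕ) (ψ χ : Dual G) (g : G) {δ : ℝ} (hδ : 0 < δ)
    (h : δ ≤ ‖((χ g : Circle) : ℂ) - ψ g‖) :
    ‖∑ i : Fin N, th ψ χ g ^ (i : ℕ)‖ ≤ 2 / δ := by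
  rw [← norm_th_sub] at h
  have h0 : th ψ χ g ≠ 1 := by
    intro h1
    rw [h1, sub_self, norm_zero] at h
    linarith
  rw [Fin.sum_univ_eq_sum_range (fun i => th ψ χ g ^ i) N, geom_sum_eq h0, norm_div]
  have h2 : ‖th ψ χ g ^ N - 1‖ ≤ 2 := by
    refine (norm_sub_le _ _).trans ?_
    rw [norm_pow, norm_th]
    norm_num
  exact div_le_div₀ (by norm_num) h2 hδ h

theorem sum_th_le [DecidableEq G] (K : Finset G) (N : ℕ) (ψ χ : Dual G) :
    ‖∑ j : K → Fin N, th ψ χ (sh K N j)‖ ≤ (N : ℝ) ^ K.card := by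
  rw [sum_th, norm_prod]
  refine (Finset.prod_le_prod (fun _ _ => norm_nonneg _)
    fun (k : K) _ => geom_le N ψ χ (k : G)).trans ?_
  simp

theorem sum_th_le' [DecidableEq G] (K : Finset G) {N : ℕ} (hN : 0 < N) (ψ χ : Dual G) {δ : ℝ} (hδ : 0 < δ)
    (h : χ ∉ nb ψ K δ) :
    ‖∑ j : K → Fin N, th ψ χ (sh K N j)‖ ≤ (N : ℝ) ^ K.card * (2 / (N * δ)) := by
  classical
  have hN' : (0 : ℝ) < N := by exact_mod_cast hN
  simp only [nb, Set.mem_ofPred_eq, not_forall, not_lt] at h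
  obtain ⟨k, hk, hδk⟩ := h
  rw [sum_th, norm_prod, ← Finset.mul_prod_erase Finset.univ _ (Finset.mem_univ (⟨k, hk⟩ : K))]
  have h1 : ∏ x ∈ Finset.univ.erase (⟨k, hk⟩ : K), ‖∑ i : Fin N, th ψ χ (x : G) ^ (i : ℕ)‖ ≤
      (N : ℝ) ^ (K.card - 1) := by
    refine (Finset.prod_le_prod (fun _ _ => norm_nonneg _)
      fun (x : K) _ => geom_le N ψ χ (x : G)).trans ?_
    rw [Finset.prod_const, Finset.card_erase_of_mem (Finset.mem_univ _), Finset.card_univ,
      Fintype.card_coe]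
  have h2 := geom_le' N ψ χ k hδ hδk
  have hc : 0 < K.card := Finset.card_pos.2 ⟨k, hk⟩
  have h3 : (N : ℝ) ^ K.card * (2 / (N * δ)) = (2 / δ) * (N : ℝ) ^ (K.card - 1) := by
    obtain ⟨c, hc'⟩ : ∃ c, K.card = c + 1 := ⟨K.card - 1, by omega⟩
    rw [hc', Nat.add_sub_cancel, pow_succ]
    field_simp
  rw [h3]
  exact mul_le_mul h2 h1 (Finset.prod_nonneg fun _ _ => norm_nonneg _) (by positivity)

end Pool.Agent.Q246.KMF
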