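import Pool.Agent.Q246.KMF.Defs

set_option autoImplicit false

namespace Pool.Agent.Q246.KMF

open MeasureTheory Topology Filter

universe u

variable {G : Type u} [AddCommGroup G]

theorem inducing : IsInducing (fun χ : Dual G => (fun g => χ g : G → Circle)) := ⟨rfl⟩

theorem continuous_ev (g : G) : Continuous (fun χ : Dual G => χ g) :=
  (continuous_apply g).comp inducing.continuous

theorem continuous_evC (g : G) : Continuous (fun χ : Dual G => ((χ g : Circle) : ℂ)) :=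
  continuous_subtype_val.comp (continuous_ev g)

instance : CompactSpace (Dual G) := by
  rw [← isCompact_univ_iff, inducing.isCompact_iff]
  apply IsClosed.isCompact
  have h : (fun χ : Dual G => (fun g => χ g : G → Circle)) '' Set.univ =
      {f | f 0 = 1 ∧ ∀ a b, f (a + b) = f a * f b} := by
    ext f
    constructor
    · rintro ⟨χ, -, rfl⟩
      exact ⟨χ.map_zero_eq_one, fun a b => χ.map_add_eq_mul a b⟩
    · rintro ⟨h0, h1⟩
      exact ⟨⟨f, h0, h1⟩, trivial, rfl⟩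
  rw [h]
  have h1 : IsClosed {f : G → Circle | f 0 = 1} :=
    isClosed_eq (continuous_apply 0) continuous_const
  have h2 : IsClosed {f : G → Circle | ∀ a b, f (a + b) = f a * f b} := by
    simp only [Set.ofPred_forall]
    exact isClosed_iInter fun a => isClosed_iInter fun b =>
      isClosed_eq (continuous_apply (a + b)) ((continuous_apply a).mul (continuous_apply b))
  exact h1.inter h2

/-- The basic neighbourhoods. -/
def nb (ψ : Dual G) (K : Finset G) (δ : ℝ) : Set (Dual G) :=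
  {χ | ∀ k ∈ K, ‖((χ k : Circle) : ℂ) - ψ k‖ < δ}

theorem isOpen_nb (ψ : Dual G) (K : Finset G) (δ : ℝ) : IsOpen (nb ψ K δ) := by
  have h : nb ψ K δ = ⋂ k ∈ K, {χ : Dual G | ‖((χ k : Circle) : ℂ) - ψ k‖ < δ} := by
    ext χ
    simp [nb]
  rw [h]
  exact isOpen_biInter_finset fun k _ =>
    isOpen_lt ((continuous_evC k).sub continuous_const).norm continuous_const

theorem mem_nb (ψ : Dual G) (K : Finset G) {δ : ℝ} (hδ : 0 < δ) : ψ ∈ nb ψ K δ := by
  intro k _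
  simpa using hδ

theorem exists_nb {ψ : Dual G} {U : Set (Dual G)} (hU : U ∈ 𝓝 ψ) :
    ∃ (K : Finset G) (δ : ℝ), 0 < δ ∧ nb ψ K δ ⊆ U := by
  classical
  rw [inducing.nhds_eq_comap, Filter.mem_comap] at hU
  obtain ⟨V, hV, hVU⟩ := hU
  rw [nhds_pi, Filter.mem_pi] at hV
  obtain ⟨I, hI, t, ht, hIt⟩ := hV
  have h1 : ∀ i, ∃ δ : ℝ, 0 < δ ∧ Metric.ball (ψ i) δ ⊆ t i := fun i => by
    obtain ⟨δ, h0, h⟩ := Metric.mem_nhds_iff.1 (ht i)
    exact ⟨δ, h0, h⟩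
  choose δ hδ0 hδ using h1
  have h2 : ∃ ε : ℝ, 0 < ε ∧ ∀ i ∈ hI.toFinset, ε ≤ δ i := by
    rcases hI.toFinset.eq_empty_or_nonempty with h | h
    · exact ⟨1, one_pos, by simp [h]⟩
    · refine ⟨hI.toFinset.inf' h δ, ?_, fun i hi => Finset.inf'_le _ hi⟩
      rw [Finset.lt_inf'_iff]
      exact fun i _ => hδ0 i
  obtain ⟨ε, hε0, hε⟩ := h2
  refine ⟨hI.toFinset, ε, hε0, fun χ hχ => hVU (hIt fun i hi => hδ i ?_)⟩
  rw [Metric.mem_ball]
  have h3 := hχ i (hI.mem_toFinset.2 hi)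
  have h4 : dist (χ i) (ψ i) = ‖((χ i : Circle) : ℂ) - ψ i‖ := by
    rw [← dist_eq_norm]
    rfl
  show dist (χ i) (ψ i) < δ i
  rw [h4]
  exact lt_of_lt_of_le h3 (hε i (hI.mem_toFinset.2 hi))

/-- A measure without atoms is uniformly small on small neighbourhoods. -/
theorem unif_small (μ : Measure (Dual G)) [IsFiniteMeasure μ] [μ.OuterRegular]
    (hμ : ∀ χ, μ {χ} = 0) {ε : ENNReal} (hε : 0 < ε) :
    ∃ (K : Finset G) (δ : ℝ), 0 < δ ∧ ∀ ψ : Dual G, μ (nb ψ K δ) ≤ ε := by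
  classical
  have h1 : ∀ ψ : Dual G, ∃ (K : Finset G) (δ : ℝ), 0 < δ ∧ μ (nb ψ K (2 * δ)) ≤ ε := by
    intro ψ
    obtain ⟨U, hU, hUo, hUε⟩ := Set.exists_isOpen_lt_of_lt {ψ} ε (by rw [hμ ψ]; exact hε)
    obtain ⟨K, δ, hδ, hK⟩ := exists_nb (hUo.mem_nhds (hU rfl))
    refine ⟨K, δ / 2, by positivity, (measure_mono ?_).trans hUε.le⟩
    rwa [show 2 * (δ / 2) = δ by ring]
  choose K δ hδ hK using h1
  obtain ⟨t, ht⟩ := CompactSpace.elim_nhds_subcover (fun ψ : Dual G => nb ψ (K ψ) (δ ψ))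
    (fun ψ => (isOpen_nb _ _ _).mem_nhds (mem_nb ψ (K ψ) (hδ ψ)))
  have h2 : ∃ η : ℝ, 0 < η ∧ ∀ i ∈ t, η ≤ δ i := by
    rcases t.eq_empty_or_nonempty with h | h
    · exact ⟨1, one_pos, by simp [h]⟩
    · refine ⟨t.inf' h δ, ?_, fun i hi => Finset.inf'_le _ hi⟩
      rw [Finset.lt_inf'_iff]
      exact fun i _ => hδ i
  obtain ⟨η, hη0, hη⟩ := h2
  refine ⟨t.biUnion K, η, hη0, fun ψ => ?_⟩
  have hψ : ψ ∈ ⋃ x ∈ t, nb x (K x) (δ x) := by
    rw [ht]
    trivial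
  simp only [Set.mem_iUnion] at hψ
  obtain ⟨x, hx, hψx⟩ := hψ
  refine (measure_mono fun χ hχ => ?_).trans (hK x)
  intro k hk
  have a1 := hχ k (Finset.mem_biUnion.2 ⟨x, hx, hk⟩)
  have a2 := hψx k hk
  have a3 := hη x hx
  calc ‖((χ k : Circle) : ℂ) - x k‖ = ‖(((χ k : Circle) : ℂ) - ψ k) + (((ψ k : Circle) : ℂ) - x k)‖ := by
        congr 1
        ring
    _ ≤ ‖((χ k : Circle) : ℂ) - ψ k‖ + ‖((ψ k : Circle) : ℂ) - x k‖ := norm_add_le _ _
    _ < 2 * δ x := by linarith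

end Pool.Agent.Q246.KMF
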